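import Pool.Agent.H37.CSZ.Stmts

/-!
# Row ZZG of the board `csz`: the group of the cover is the Suzuki group (after row `UNG`, helper66)
-/

set_option autoImplicit false

namespace Pool.CND

open Finset Matrix Polynomial

namespace ZZGaux

theorem indep4 {R : Type} [CommRing R] [CharP R 2] (x y z w a : Fin 4 → R) (t : R)
    (xy : x 0 * y 3 + x 3 * y 0 + x 1 * y 2 + x 2 * y 1 = 0)
    (xz : x 0 * z 3 + x 3 * z 0 + x 1 * z 2 + x 2 * z 1 = 1)
    (xw : x 0 * w 3 + x 3 * w 0 + x 1 * w 2 + x 2 * w 1 = t)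
    (yz : y 0 * z 3 + y 3 * z 0 + y 1 * z 2 + y 2 * z 1 = 0)
    (yw : y 0 * w 3 + y 3 * w 0 + y 1 * w 2 + y 2 * w 1 = 1)
    (zw : z 0 * w 3 + z 3 * w 0 + z 1 * w 2 + z 2 * w 1 = 0)
    (hx : a 0 * x 0 + a 1 * x 1 + a 2 * x 2 + a 3 * x 3 = 0)
    (hy : a 0 * y 0 + a 1 * y 1 + a 2 * y 2 + a 3 * y 3 = 0)
    (hz : a 0 * z 0 + a 1 * z 1 + a 2 * z 2 + a 3 * z 3 = 0)
    (hw : a 0 * w 0 + a 1 * w 1 + a 2 * w 2 + a 3 * w 3 = 0) : ∀ i, a i = 0 := by
  have h2 : (2 : R) = 0 := CharTwo.two_eq_zero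
  let M : Matrix (Fin 4) (Fin 4) R := Matrix.of ![x, y, z, w]
  -- the inverse: `J Mᵀ G⁻¹`
  let N : Matrix (Fin 4) (Fin 4) R := Matrix.of ![
    ![z 3, w 3 + t * z 3, x 3 + t * y 3, y 3],
    ![z 2, w 2 + t * z 2, x 2 + t * y 2, y 2],
    ![z 1, w 1 + t * z 1, x 1 + t * y 1, y 1],
    ![z 0, w 0 + t * z 0, x 0 + t * y 0, y 0]]
  have hMN : M * N = 1 := by
    ext i j
    fin_cases i <;> fin_cases j <;>
      simp [M, N, Matrix.mul_apply, Fin.sum_univ_four]
    · linear_combination xz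
    · linear_combination xw + t * xz + t * h2
    · linear_combination t * xy + (x 0 * x 3 + x 1 * x 2) * h2
    · linear_combination xy
    · linear_combination yz
    · linear_combination yw + t * yz
    · linear_combination xy + t * (y 0 * y 3 + y 1 * y 2) * h2
    · linear_combination (y 0 * y 3 + y 1 * y 2) * h2
    · linear_combination (z 0 * z 3 + z 1 * z 2) * h2
    · linear_combination zw + t * (z 0 * z 3 + z 1 * z 2) * h2
    · linear_combination xz + t * yz
    · linear_combination yz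
    · linear_combination zw
    · linear_combination t * zw + (w 0 * w 3 + w 1 * w 2) * h2
    · linear_combination xw + t * yw + t * h2
    · linear_combination yw
  have hNM : N * M = 1 := mul_eq_one_comm.1 hMN
  have hMa : M.mulVec a = 0 := by
    funext i
    fin_cases i <;> simp [M, Matrix.mulVec, dotProduct, Fin.sum_univ_four]
    · linear_combination hx
    · linear_combination hy
    · linear_combination hz
    · linear_combination hw
  have ha : a = 0 := by
    have := congrArg (fun v => N.mulVec v) hMa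
    simp only [Matrix.mulVec_mulVec, hNM, Matrix.one_mulVec, Matrix.mulVec_zero] at this
    exact this
  intro i
  rw [ha]; rfl

theorem mul_J4 {F : Type} [Field F] (A : Matrix (Fin 4) (Fin 4) F) (i j : Fin 4) :
    (A * J4 F * Aᵀ) i j =
      A i 0 * A j 3 + A i 3 * A j 0 + A i 1 * A j 2 + A i 2 * A j 1 := by
  simp only [Matrix.mul_apply, Fin.sum_univ_four, Matrix.transpose_apply]
  simp [J4]
  ring

/-- the minors of a product `(X A, Y A)` when `X`, `Y` are orthogonal and the two columns of `A` are orthogonal -/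
theorem minor {R : Type} [CommRing R] [CharP R 2] (X Y a b : Fin 4 → R)
    (h : X 0 * Y 3 + X 3 * Y 0 + X 1 * Y 2 + X 2 * Y 1 = 0)
    (hc : a 0 * b 3 + a 3 * b 0 = a 1 * b 2 + a 2 * b 1) :
    (a 0 * X 0 + a 1 * X 1 + a 2 * X 2 + a 3 * X 3) *
        (b 0 * Y 0 + b 1 * Y 1 + b 2 * Y 2 + b 3 * Y 3) +
      (b 0 * X 0 + b 1 * X 1 + b 2 * X 2 + b 3 * X 3) *
        (a 0 * Y 0 + a 1 * Y 1 + a 2 * Y 2 + a 3 * Y 3) =
    (a 0 * b 1 - b 0 * a 1) * (X 0 * Y 1 + X 1 * Y 0) +
      (a 0 * b 2 - b 0 * a 2) * (X 0 * Y 2 + X 2 * Y 0) +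
      (a 1 * b 3 - b 1 * a 3) * (X 1 * Y 3 + X 3 * Y 1) +
      (a 2 * b 3 - b 2 * a 3) * (X 2 * Y 3 + X 3 * Y 2) := by
  have h2 : (2 : R) = 0 := CharTwo.two_eq_zero
  linear_combination (a 0 * b 3 + a 3 * b 0) * h - (X 1 * Y 2 + X 2 * Y 1) * hc +
    (a 0 * b 0 * X 0 * Y 0 + a 1 * b 1 * X 1 * Y 1 + a 2 * b 2 * X 2 * Y 2 + a 3 * b 3 * X 3 * Y 3 +
      b 0 * a 1 * (X 0 * Y 1 + X 1 * Y 0) + b 0 * a 2 * (X 0 * Y 2 + X 2 * Y 0) +
      b 1 * a 3 * (X 1 * Y 3 + X 3 * Y 1) + b 2 * a 3 * (X 2 * Y 3 + X 3 * Y 2)) * h2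

end ZZGaux

theorem zzg_thm (hZZC : S_ZZC) : S_ZZG := by
  intro n q f k F L _ _ _ _ _ _ φF t X hchar hn hf hq hcard hs hR htop hfr
  classical
  have hq2 : 2 ≤ q := by rw [hq]; exact Nat.le_self_pow (by omega) 2
  have hq0 : 0 < q := by omega
  have : Finite F := Nat.finite_of_card_ne_zero (by rw [hcard]; positivity)
  have : Fintype F := Fintype.ofFinite F
  have hqc : Fintype.card F = q := by rw [← hcard, Nat.card_eq_fintype_card]
  have : CharP L 2 := charP_of_injective_algebraMap (algebraMap k L).injective 2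
  set K := IntermediateField.adjoin k {t} with hK
  have : CharP K 2 := charP_of_injective_algebraMap (algebraMap k K).injective 2
  have h2L : (2 : L) = 0 := CharTwo.two_eq_zero
  have hpos : 0 < q ^ 2 * ((q - 1) * (q ^ 2 + 1)) :=
    Nat.mul_pos (by positivity) (Nat.mul_pos (by omega) (by omega))
  have : FiniteDimensional K L := Module.finite_of_finrank_pos (by rw [hfr]; exact hpos)
  let c : F →+* L := (algebraMap k L).comp (algebraMap F k)
  have hcinj : Function.Injective c := c.injective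
  have hcf : ∀ a : F, c a ^ f = c (φF a) := fun a => by
    rw [← map_pow, hs]
  have hcq : ∀ a : F, c a ^ q = c a := fun a => by
    rw [← map_pow, ← hqc, FiniteField.pow_card]
  have hcq2 : ∀ a : F, c a ^ (q ^ 2) = c a := fun a => by
    rw [show q ^ 2 = q * q by ring, pow_mul, hcq, hcq]
  have hcq3 : ∀ a : F, c a ^ (q ^ 3) = c a := fun a => by
    rw [show q ^ 3 = q ^ 2 * q by ring, pow_mul, hcq2, hcq]
  have hcq4 : ∀ a : F, c a ^ (q ^ 4) = c a := fun a => by
    rw [show q ^ 4 = q ^ 3 * q by ring, pow_mul, hcq3, hcq]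
  have hadd : ∀ (j : ℕ) (u v : L), (u + v) ^ (q ^ j) = u ^ (q ^ j) + v ^ (q ^ j) := by
    intro j u v
    rw [hq, ← pow_mul]
    exact add_pow_char_pow (p := 2) (n := (2 * n + 1) * j) u v
  have hadd1 : ∀ (u v : L), (u + v) ^ q = u ^ q + v ^ q := by
    intro u v
    have := hadd 1 u v
    simpa only [pow_one] using this
  have haddf : ∀ (u v : L), (u + v) ^ f = u ^ f + v ^ f := by
    intro u v
    rw [hf]
    exact add_pow_char_pow (p := 2) (n := n + 1) u v
  -- the Gram matrix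
  have g12 : X 0 ^ q * X 3 ^ (q ^ 2) + X 3 ^ q * X 0 ^ (q ^ 2) + X 1 ^ q * X 2 ^ (q ^ 2) +
      X 2 ^ q * X 1 ^ (q ^ 2) = 0 := by
    have h := congrArg (fun w : L => w ^ q) hR.h1
    simp only [hadd1, mul_pow, ← pow_mul] at h
    rw [zero_pow (by omega), ← pow_two] at h
    exact h
  have g13 : X 0 ^ q * X 3 ^ (q ^ 3) + X 3 ^ q * X 0 ^ (q ^ 3) + X 1 ^ q * X 2 ^ (q ^ 3) +
      X 2 ^ q * X 1 ^ (q ^ 3) = 1 := by
    have h := congrArg (fun w : L => w ^ q) hR.h2
    simp only [hadd1, mul_pow, ← pow_mul, one_pow] at h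
    rw [← pow_succ] at h
    exact h
  have g23 : X 0 ^ (q ^ 2) * X 3 ^ (q ^ 3) + X 3 ^ (q ^ 2) * X 0 ^ (q ^ 3) +
      X 1 ^ (q ^ 2) * X 2 ^ (q ^ 3) + X 2 ^ (q ^ 2) * X 1 ^ (q ^ 3) = 0 := by
    have h := congrArg (fun w : L => w ^ q) g12
    simp only [hadd1, mul_pow, ← pow_mul] at h
    rw [zero_pow (by omega), ← pow_two, ← pow_succ] at h
    exact h
  have hind : ∀ v : Fin 4 → L, v 0 * X 0 + v 1 * X 1 + v 2 * X 2 + v 3 * X 3 = 0 →
      v 0 * X 0 ^ q + v 1 * X 1 ^ q + v 2 * X 2 ^ q + v 3 * X 3 ^ q = 0 →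
      v 0 * X 0 ^ (q ^ 2) + v 1 * X 1 ^ (q ^ 2) + v 2 * X 2 ^ (q ^ 2) + v 3 * X 3 ^ (q ^ 2) = 0 →
      v 0 * X 0 ^ (q ^ 3) + v 1 * X 1 ^ (q ^ 3) + v 2 * X 2 ^ (q ^ 3) + v 3 * X 3 ^ (q ^ 3) = 0 →
      ∀ i, v i = 0 := fun v h0 h1 h2 h3 =>
    ZZGaux.indep4 X (fun i => X i ^ q) (fun i => X i ^ (q ^ 2)) (fun i => X i ^ (q ^ 3)) v t
      hR.h1 hR.h2 hR.h3 g12 g13 g23 h0 h1 h2 h3
  have hlin : ∀ a : Fin 4 → F,
      c (a 0) * X 0 + c (a 1) * X 1 + c (a 2) * X 2 + c (a 3) * X 3 = 0 → a = 0 := by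
    intro a h
    have h1 : c (a 0) * X 0 ^ q + c (a 1) * X 1 ^ q + c (a 2) * X 2 ^ q + c (a 3) * X 3 ^ q = 0 := by
      have h3 := congrArg (fun w : L => w ^ q) h
      simp only [hadd1, mul_pow, hcq] at h3
      rwa [zero_pow (by positivity)] at h3
    have h2 : c (a 0) * X 0 ^ (q ^ 2) + c (a 1) * X 1 ^ (q ^ 2) + c (a 2) * X 2 ^ (q ^ 2) +
        c (a 3) * X 3 ^ (q ^ 2) = 0 := by
      have h3 := congrArg (fun w : L => w ^ (q ^ 2)) h
      simp only [hadd, mul_pow, hcq2] at h3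
      rwa [zero_pow (by positivity)] at h3
    have h3 : c (a 0) * X 0 ^ (q ^ 3) + c (a 1) * X 1 ^ (q ^ 3) + c (a 2) * X 2 ^ (q ^ 3) +
        c (a 3) * X 3 ^ (q ^ 3) = 0 := by
      have h3 := congrArg (fun w : L => w ^ (q ^ 3)) h
      simp only [hadd, mul_pow, hcq3] at h3
      rwa [zero_pow (by positivity)] at h3
    have h5 := hind (fun i => c (a i)) h h1 h2 h3
    funext i
    exact hcinj (by rw [h5 i]; simp)
  let φ : (Fin 4 → F) → L := fun w => c (w 0) * X 0 + c (w 1) * X 1 + c (w 2) * X 2 + c (w 3) * X 3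
  have hφ : ∀ w, φ w = c (w 0) * X 0 + c (w 1) * X 1 + c (w 2) * X 2 + c (w 3) * X 3 := fun w => rfl
  have hφinj : Function.Injective φ := by
    intro a b h
    have h1 : c ((a - b) 0) * X 0 + c ((a - b) 1) * X 1 + c ((a - b) 2) * X 2 +
        c ((a - b) 3) * X 3 = 0 := by
      rw [hφ, hφ] at h
      simp only [Pi.sub_apply, map_sub]
      linear_combination h
    have h2 := hlin _ h1
    exact sub_eq_zero.1 h2
  let tK : K := IntermediateField.AdjoinSimple.gen k t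
  have htK : algebraMap K L tK = t := rfl
  let P : K[X] := Polynomial.X ^ (q ^ 4) + (C (tK ^ q) * Polynomial.X ^ (q ^ 3) +
    C (tK ^ f) * Polynomial.X ^ (q ^ 2) + C tK * Polynomial.X ^ q + Polynomial.X)
  have hPev : ∀ z : L, aeval z P = z ^ (q ^ 4) + (t ^ q * z ^ (q ^ 3) + t ^ f * z ^ (q ^ 2) +
      t * z ^ q + z) := by
    intro z
    simp only [P, map_add, map_mul, map_pow, aeval_X, aeval_C, htK]
  have h34 : q ^ 3 < q ^ 4 := Nat.pow_lt_pow_right (by omega) (by omega)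
  have h24 : q ^ 2 < q ^ 4 := Nat.pow_lt_pow_right (by omega) (by omega)
  have h14 : q < q ^ 4 := by
    calc q = q ^ 1 := (pow_one q).symm
      _ < q ^ 4 := Nat.pow_lt_pow_right (by omega) (by omega)
  have h04 : 1 < q ^ 4 := by omega
  have hdeg1 : (C (tK ^ q) * Polynomial.X ^ (q ^ 3) +
      C (tK ^ f) * Polynomial.X ^ (q ^ 2) + C tK * Polynomial.X ^ q +
      Polynomial.X : K[X]).natDegree < q ^ 4 := by
    refine lt_of_le_of_lt (natDegree_add_le _ _) (max_lt ?_ ?_)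
    · refine lt_of_le_of_lt (natDegree_add_le _ _) (max_lt ?_ ?_)
      · refine lt_of_le_of_lt (natDegree_add_le _ _) (max_lt ?_ ?_)
        · exact lt_of_le_of_lt (natDegree_C_mul_X_pow_le _ _) h34
        · exact lt_of_le_of_lt (natDegree_C_mul_X_pow_le _ _) h24
      · exact lt_of_le_of_lt (natDegree_C_mul_X_pow_le _ _) h14
    · rw [natDegree_X]; exact h04
  have hPdeg : P.natDegree = q ^ 4 := by
    have h1 : (Polynomial.X ^ (q ^ 4) : K[X]).natDegree = q ^ 4 := natDegree_X_pow _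
    rw [natDegree_add_eq_left_of_natDegree_lt (by rw [h1]; exact hdeg1), h1]
  have hP0 : P ≠ 0 := by
    intro h
    rw [h, natDegree_zero] at hPdeg
    omega
  have hqK : (q : K) = 0 := by
    rw [hq, Nat.cast_pow, CharP.cast_eq_zero, zero_pow (by omega)]
  have hPsep : P.Separable := by
    have h1 : derivative P = 1 := by
      simp only [P, derivative_add, derivative_X_pow, derivative_X,
        derivative_C_mul, Nat.cast_pow, hqK]
      simp
    rw [separable_def, h1]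
    exact isCoprime_one_right
  have hφj1 : ∀ w, φ w ^ q = c (w 0) * X 0 ^ q + c (w 1) * X 1 ^ q +
      c (w 2) * X 2 ^ q + c (w 3) * X 3 ^ q := by
    intro w
    rw [hφ]
    simp only [hadd1, mul_pow, hcq]
  have hφj2 : ∀ w, φ w ^ (q ^ 2) = c (w 0) * X 0 ^ (q ^ 2) + c (w 1) * X 1 ^ (q ^ 2) +
      c (w 2) * X 2 ^ (q ^ 2) + c (w 3) * X 3 ^ (q ^ 2) := by
    intro w
    rw [hφ]
    simp only [hadd, mul_pow, hcq2]
  have hφj3 : ∀ w, φ w ^ (q ^ 3) = c (w 0) * X 0 ^ (q ^ 3) + c (w 1) * X 1 ^ (q ^ 3) +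
      c (w 2) * X 2 ^ (q ^ 3) + c (w 3) * X 3 ^ (q ^ 3) := by
    intro w
    rw [hφ]
    simp only [hadd, mul_pow, hcq3]
  have hφj4 : ∀ w, φ w ^ (q ^ 4) = c (w 0) * X 0 ^ (q ^ 4) + c (w 1) * X 1 ^ (q ^ 4) +
      c (w 2) * X 2 ^ (q ^ 4) + c (w 3) * X 3 ^ (q ^ 4) := by
    intro w
    rw [hφ]
    simp only [hadd, mul_pow, hcq4]
  have hφf : ∀ w, φ w ^ f = c (φF (w 0)) * X 0 ^ f + c (φF (w 1)) * X 1 ^ f +
      c (φF (w 2)) * X 2 ^ f + c (φF (w 3)) * X 3 ^ f := by
    intro w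
    rw [hφ]
    simp only [haddf, mul_pow, hcf]
  have hφroot : ∀ z, aeval (φ z) P = 0 := by
    intro w
    rw [hPev, hφj2, hφj4, hφj3, hφj1, hφ]
    linear_combination c (w 0) * hR.rel 0 + c (w 1) * hR.rel 1 + c (w 2) * hR.rel 2 +
      c (w 3) * hR.rel 3
  have hmem : ∀ z : L, z ∈ (P.aroots L).toFinset ↔ aeval z P = 0 := by
    intro z
    rw [Multiset.mem_toFinset, mem_aroots]
    exact ⟨fun h => h.2, fun h => ⟨hP0, h⟩⟩
  have hsub : Finset.univ.image φ ⊆ (P.aroots L).toFinset := by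
    intro z hz
    obtain ⟨w, _, rfl⟩ := Finset.mem_image.1 hz
    exact (hmem _).2 (hφroot w)
  have hcardim : (Finset.univ.image φ).card = q ^ 4 := by
    rw [Finset.card_image_of_injective _ hφinj, Finset.card_univ, Fintype.card_fun, hqc,
      Fintype.card_fin]
  have hle : (P.aroots L).toFinset.card ≤ Multiset.card (P.aroots L) :=
    Multiset.toFinset_card_le _
  have hle2 : Multiset.card (P.aroots L) ≤ q ^ 4 := by
    refine le_trans (card_roots' _) ?_
    rw [natDegree_map, hPdeg]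
  have hle3 := Finset.card_le_card hsub
  rw [hcardim] at hle3
  have heq : Finset.univ.image φ = (P.aroots L).toFinset :=
    Finset.eq_of_subset_of_card_le hsub (by rw [hcardim]; omega)
  have hsplit : (P.map (algebraMap K L)).Splits := by
    rw [splits_iff_card_roots, natDegree_map, hPdeg]
    exact le_antisymm hle2 (le_trans hle3 hle)
  have hφX : ∀ i, φ (Pi.single i 1) = X i := by
    intro i
    rw [hφ]
    fin_cases i
    · simp
    · simp
    · simp
    · simp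
  have hX0 : ∀ i, aeval (X i) P = 0 := by
    intro i
    rw [← hφX]; exact hφroot _
  have hXm : ∀ i, X i ∈ P.rootSet L := fun i => (mem_rootSet_of_ne hP0).2 (hX0 i)
  have htop2 : ∀ E : IntermediateField K L, (∀ i, X i ∈ E) → E = ⊤ := by
    intro E hE
    have h2 : (⊤ : IntermediateField k L) ≤ E.restrictScalars k := by
      rw [← htop, IntermediateField.adjoin_le_iff]
      rintro z (rfl | ⟨i, rfl⟩)
      · exact E.algebraMap_mem tK
      · exact hE i
    rw [eq_top_iff]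
    intro z _
    exact h2 (IntermediateField.mem_top)
  have hadj : Algebra.adjoin K (P.rootSet L : Set L) = ⊤ := by
    have h1 : IntermediateField.adjoin K (P.rootSet L) = ⊤ :=
      htop2 _ (fun i => IntermediateField.subset_adjoin K _ (hXm i))
    have h2 := IntermediateField.adjoin_toSubalgebra_of_isAlgebraic (F := K) (E := L)
      (S := P.rootSet L) (fun z _ => Algebra.IsAlgebraic.isAlgebraic z)
    rw [← h2, h1, IntermediateField.top_toSubalgebra]
  have : P.IsSplittingField K L := ⟨hsplit, hadj⟩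
  have hgal : IsGalois K L := IsGalois.of_separable_splitting_field hPsep
  have hroot : ∀ (τ : L ≃ₐ[K] L) (i : Fin 4), ∃ w : Fin 4 → F, φ w = τ (X i) := by
    intro τ i
    have h1 : aeval (τ (X i)) P = 0 := by
      have h3 := aeval_algHom_apply (τ : L →ₐ[K] L) (X i) P
      rw [hX0, map_zero] at h3
      exact h3
    have h2 : τ (X i) ∈ (P.aroots L).toFinset := (hmem _).2 h1
    rw [← heq] at h2
    obtain ⟨w, _, hw⟩ := Finset.mem_image.1 h2
    exact ⟨w, hw⟩
  choose u hu using hroot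
  have hcσ : ∀ (τ : L ≃ₐ[K] L) (a : F), τ (c a) = c a := by
    intro τ a
    exact (τ.restrictScalars k).commutes (algebraMap F k a)
  have htσ : ∀ (τ : L ≃ₐ[K] L), τ t = t := fun τ => τ.commutes tK
  -- the matrix
  let A : (L ≃ₐ[K] L) → Matrix (Fin 4) (Fin 4) F := fun τ => Matrix.of fun j i => u τ i j
  have hA : ∀ τ j i, A τ j i = u τ i j := fun τ j i => rfl
  have hform0 : ∀ τ, A τ * J4 F * (A τ)ᵀ = J4 F := by
    intro τ
    -- `D = A J Aᵀ - J`
    let D : Fin 4 → Fin 4 → F := fun i j => A τ i 0 * A τ j 3 + A τ i 3 * A τ j 0 +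
      A τ i 1 * A τ j 2 + A τ i 2 * A τ j 1 - J4 F i j
    have hD : ∀ i j, D i j = A τ i 0 * A τ j 3 + A τ i 3 * A τ j 0 +
      A τ i 1 * A τ j 2 + A τ i 2 * A τ j 1 - J4 F i j := fun i j => rfl
    have j00 : J4 F 0 0 = 0 := by simp [J4]
    have j01 : J4 F 0 1 = 0 := by simp [J4]
    have j02 : J4 F 0 2 = 0 := by simp [J4]
    have j03 : J4 F 0 3 = 1 := by simp [J4]
    have j10 : J4 F 1 0 = 0 := by simp [J4]
    have j11 : J4 F 1 1 = 0 := by simp [J4]
    have j12 : J4 F 1 2 = 1 := by simp [J4]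
    have j13 : J4 F 1 3 = 0 := by simp [J4]
    have j20 : J4 F 2 0 = 0 := by simp [J4]
    have j21 : J4 F 2 1 = 1 := by simp [J4]
    have j22 : J4 F 2 2 = 0 := by simp [J4]
    have j23 : J4 F 2 3 = 0 := by simp [J4]
    have j30 : J4 F 3 0 = 1 := by simp [J4]
    have j31 : J4 F 3 1 = 0 := by simp [J4]
    have j32 : J4 F 3 2 = 0 := by simp [J4]
    have j33 : J4 F 3 3 = 0 := by simp [J4]
    let v : Fin 4 → L := fun j => c (D j 0) * X 0 + c (D j 1) * X 1 + c (D j 2) * X 2 +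
      c (D j 3) * X 3
    have hv : ∀ j, v j = c (D j 0) * X 0 + c (D j 1) * X 1 + c (D j 2) * X 2 +
      c (D j 3) * X 3 := fun j => rfl
    have horth : ∀ (Y : Fin 4 → L) (r : L),
        (X 0 * Y 3 + X 3 * Y 0 + X 1 * Y 2 + X 2 * Y 1 = r) →
        ((c (u τ 0 0) * X 0 + c (u τ 0 1) * X 1 + c (u τ 0 2) * X 2 + c (u τ 0 3) * X 3) *
          (c (u τ 3 0) * Y 0 + c (u τ 3 1) * Y 1 + c (u τ 3 2) * Y 2 + c (u τ 3 3) * Y 3) +
        (c (u τ 3 0) * X 0 + c (u τ 3 1) * X 1 + c (u τ 3 2) * X 2 + c (u τ 3 3) * X 3) *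
          (c (u τ 0 0) * Y 0 + c (u τ 0 1) * Y 1 + c (u τ 0 2) * Y 2 + c (u τ 0 3) * Y 3) +
        (c (u τ 1 0) * X 0 + c (u τ 1 1) * X 1 + c (u τ 1 2) * X 2 + c (u τ 1 3) * X 3) *
          (c (u τ 2 0) * Y 0 + c (u τ 2 1) * Y 1 + c (u τ 2 2) * Y 2 + c (u τ 2 3) * Y 3) +
        (c (u τ 2 0) * X 0 + c (u τ 2 1) * X 1 + c (u τ 2 2) * X 2 + c (u τ 2 3) * X 3) *
          (c (u τ 1 0) * Y 0 + c (u τ 1 1) * Y 1 + c (u τ 1 2) * Y 2 + c (u τ 1 3) * Y 3) = r) →
        v 0 * Y 0 + v 1 * Y 1 + v 2 * Y 2 + v 3 * Y 3 = 0 := by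
      intro Y r h1 h2
      simp only [hv, hD, hA, map_sub, map_add, map_mul, j00, j01, j02, j03, j10, j11, j12, j13,
        j20, j21, j22, j23, j30, j31, j32, j33, map_zero, map_one]
      linear_combination h2 - h1
    have hv0 : v 0 * X 0 + v 1 * X 1 + v 2 * X 2 + v 3 * X 3 = 0 := by
      refine horth X 0 ?_ ?_
      · linear_combination (X 0 * X 3 + X 1 * X 2) * h2L
      · linear_combination
          ((c (u τ 0 0) * X 0 + c (u τ 0 1) * X 1 + c (u τ 0 2) * X 2 + c (u τ 0 3) * X 3) *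
          (c (u τ 3 0) * X 0 + c (u τ 3 1) * X 1 + c (u τ 3 2) * X 2 + c (u τ 3 3) * X 3) +
          (c (u τ 1 0) * X 0 + c (u τ 1 1) * X 1 + c (u τ 1 2) * X 2 + c (u τ 1 3) * X 3) *
          (c (u τ 2 0) * X 0 + c (u τ 2 1) * X 1 + c (u τ 2 2) * X 2 + c (u τ 2 3) * X 3)) * h2L
    have hv1 : v 0 * X 0 ^ q + v 1 * X 1 ^ q + v 2 * X 2 ^ q + v 3 * X 3 ^ q = 0 := by
      refine horth (fun i => X i ^ q) 0 hR.h1 ?_
      have h2 := congrArg τ hR.h1
      simp only [map_add, map_mul, map_pow, ← hu, map_zero] at h2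
      simp only [hφj1] at h2
      exact h2
    have hv2 : v 0 * X 0 ^ (q ^ 2) + v 1 * X 1 ^ (q ^ 2) + v 2 * X 2 ^ (q ^ 2) +
        v 3 * X 3 ^ (q ^ 2) = 0 := by
      refine horth (fun i => X i ^ (q ^ 2)) 1 hR.h2 ?_
      have h2 := congrArg τ hR.h2
      simp only [map_add, map_mul, map_pow, ← hu, map_one] at h2
      simp only [hφj2] at h2
      exact h2
    have hv3 : v 0 * X 0 ^ (q ^ 3) + v 1 * X 1 ^ (q ^ 3) + v 2 * X 2 ^ (q ^ 3) +
        v 3 * X 3 ^ (q ^ 3) = 0 := by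
      refine horth (fun i => X i ^ (q ^ 3)) t hR.h3 ?_
      have h2 := congrArg τ hR.h3
      simp only [map_add, map_mul, map_pow, ← hu, htσ] at h2
      simp only [hφj3] at h2
      exact h2
    have hv00 : ∀ j, v j = 0 := hind v hv0 hv1 hv2 hv3
    have hD0 : ∀ i j, D i j = 0 := by
      intro i j
      have h1 := hlin (fun j => D i j) (by rw [← hv i]; exact hv00 i)
      exact congrFun h1 j
    ext i j
    rw [ZZGaux.mul_J4]
    have h1 := hD0 i j
    rw [hD, sub_eq_zero] at h1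
    exact h1
  have hform : ∀ τ, (A τ)ᵀ * J4 F * A τ = J4 F := by
    intro τ
    have h1 := hform0 τ
    have h2 := j4_comm (g := (A τ)ᵀ) (by rw [Matrix.transpose_transpose]; exact h1)
    rw [Matrix.transpose_transpose] at h2
    exact h2
  have hdet : ∀ τ, (A τ).det = 1 := by
    intro τ
    have h1 := congrArg Matrix.det (hform τ)
    have h2 : (J4 F).det * (J4 F).det = 1 := by
      rw [← Matrix.det_mul, j4_sq, Matrix.det_one]
    rw [Matrix.det_mul, Matrix.det_mul, Matrix.det_transpose] at h1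
    have h3 : (A τ).det * (A τ).det = 1 := by
      linear_combination (J4 F).det * h1 + (1 - (A τ).det * (A τ).det) * h2
    have h4 : ((A τ).det - 1) * ((A τ).det - 1) = 0 := by
      have h22 : (2 : F) = 0 := CharTwo.two_eq_zero
      linear_combination h3 + (1 - (A τ).det) * h22
    have h5 := mul_self_eq_zero.1 h4
    exact sub_eq_zero.1 h5
  have hFinj : Function.Injective φF := φF.injective
  have hFsurj : Function.Surjective φF := Finite.surjective_of_injective hFinj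
  have hlinf : ∀ a : Fin 4 → F, c (a 0) * X 0 ^ f + c (a 1) * X 1 ^ f + c (a 2) * X 2 ^ f +
      c (a 3) * X 3 ^ f = 0 → a = 0 := by
    intro a h
    choose b hb using hFsurj
    have h1 : φ (fun i => b (a i)) ^ f = 0 := by
      have h0 := hφf (fun i => b (a i))
      simp only [hb] at h0
      rw [h0]
      exact h
    have h2 : φ (fun i => b (a i)) = 0 := pow_eq_zero_iff (by rw [hf]; positivity) |>.1 h1
    have h3 := hlin (fun i => b (a i)) h2
    funext i
    have h4 : b (a i) = 0 := congrFun h3 i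
    rw [← hb (a i), h4, map_zero]
    rfl
  have hmnr : ∀ τ, mnr (A τ) = (A τ).map φF := by
    intro τ
    have hp : ∀ b : Fin 4, X (pr1 b) * X (pr2 b) ^ q + X (pr2 b) * X (pr1 b) ^ q = X b ^ f := by
      intro b
      fin_cases b
      · exact hR.p01
      · exact hR.p02
      · exact hR.p13
      · exact hR.p23
    have key : ∀ b : Fin 4, (fun a => mnr (A τ) a b - φF (A τ a b)) = 0 := by
      intro b
      apply hlinf
      have h1 := congrArg τ (hp b)
      simp only [map_add, map_mul, map_pow, ← hu] at h1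
      simp only [hφj1, hφf] at h1
      have h2 := cols_iso (hform τ) b
      simp only [hA] at h2
      have h3 := congrArg c h2
      simp only [map_add, map_mul] at h3
      have h4 := ZZGaux.minor X (fun i => X i ^ q) (fun i => c (u τ (pr1 b) i))
        (fun i => c (u τ (pr2 b) i)) hR.h1 (by linear_combination h3)
      have p0 := hR.p01
      have p1 := hR.p02
      have p2 := hR.p13
      have p3 := hR.p23
      simp only [hφ] at h1
      have m0 : mnr (A τ) 0 b = u τ (pr1 b) 0 * u τ (pr2 b) 1 - u τ (pr2 b) 0 * u τ (pr1 b) 1 := rfl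
      have m1 : mnr (A τ) 1 b = u τ (pr1 b) 0 * u τ (pr2 b) 2 - u τ (pr2 b) 0 * u τ (pr1 b) 2 := rfl
      have m2 : mnr (A τ) 2 b = u τ (pr1 b) 1 * u τ (pr2 b) 3 - u τ (pr2 b) 1 * u τ (pr1 b) 3 := rfl
      have m3 : mnr (A τ) 3 b = u τ (pr1 b) 2 * u τ (pr2 b) 3 - u τ (pr2 b) 2 * u τ (pr1 b) 3 := rfl
      simp only [m0, m1, m2, m3, hA, map_sub, map_mul]
      rw [p0, p1, p2, p3] at h4
      linear_combination h1 - h4
    ext a b
    have h := congrFun (key b) a
    exact sub_eq_zero.1 h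
  have hmul : ∀ τ τ' : L ≃ₐ[K] L, A (τ * τ') = A τ * A τ' := by
    intro τ τ'
    ext j i
    have h1 : u (τ * τ') i = fun j => (A τ * A τ') j i := by
      apply hφinj
      rw [hu, AlgEquiv.mul_apply, ← hu τ' i]
      rw [hφ (u τ' i)]
      simp only [map_add, map_mul, hcσ, ← hu τ]
      rw [hφ, hφ, hφ, hφ]
      change _ = c ((A τ * A τ') 0 i) * X 0 + c ((A τ * A τ') 1 i) * X 1 +
        c ((A τ * A τ') 2 i) * X 2 + c ((A τ * A τ') 3 i) * X 3
      simp only [Matrix.mul_apply, Fin.sum_univ_four, hA, map_add, map_mul]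
      ring
    rw [hA, h1]
  let Φ : (L ≃ₐ[K] L) →* Sz φF := MonoidHom.mk' (fun τ => ⟨⟨A τ, hdet τ⟩, hform τ, hmnr τ⟩) (by
      intro τ τ'
      apply Subtype.ext
      apply Subtype.ext
      exact hmul τ τ')
  have hΦ : ∀ τ, (Φ τ).1.1 = A τ := fun τ => rfl
  have hΦinj : Function.Injective Φ := by
    intro τ τ' h
    have h1 : A τ = A τ' := by rw [← hΦ, ← hΦ, h]
    have hX : ∀ i, τ (X i) = τ' (X i) := by
      intro i
      rw [← hu, ← hu]
      congr 1
      funext j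
      rw [← hA, ← hA, h1]
    have h2 : (τ : L →ₐ[K] L) = (τ' : L →ₐ[K] L) := by
      refine AlgHom.ext_of_adjoin_eq_top hadj ?_
      intro z hz
      have h3 : z ∈ (P.aroots L).toFinset := (hmem z).2 ((mem_rootSet_of_ne hP0).1 hz)
      rw [← heq] at h3
      obtain ⟨w, _, hw⟩ := Finset.mem_image.1 h3
      change τ z = τ' z
      rw [← hw, hφ]
      simp only [map_add, map_mul, hcσ, hX]
    ext z
    exact congrArg (fun g : L →ₐ[K] L => g z) h2
  have hcardG : Nat.card (L ≃ₐ[K] L) = q ^ 2 * ((q - 1) * (q ^ 2 + 1)) := by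
    rw [← hfr]; exact IsGalois.card_aut_eq_finrank K L
  have hΦbij : Function.Bijective Φ := by
    have : Finite (Matrix.SpecialLinearGroup (Fin 4) F) := Subtype.finite
    have : Finite (Sz φF) := Subtype.finite
    have h1 := hZZC n q f F φF hn hf hq hcard hs
    exact hΦinj.bijective_of_nat_card_le (by rw [hcardG]; exact h1)
  let e : (L ≃ₐ[K] L) ≃* Sz φF := MulEquiv.ofBijective Φ hΦbij
  let ρ : Sz φF →* (L ≃ₐ[k] L) := (AlgEquiv.restrictScalarsHom k).comp e.symm.toMonoidHom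
  have hρ : ∀ g z, ρ g z = e.symm g z := fun g z => rfl
  have hg : ∀ g : Sz φF, g.1.1 = A (e.symm g) := by
    intro g
    rw [← hΦ]
    exact congrArg (fun w : Sz φF => w.1.1) (e.apply_symm_apply g).symm
  refine ⟨ρ, ?_, ?_, ?_⟩
  · intro g
    rw [hρ]
    exact (e.symm g).commutes tK
  · intro g i
    rw [hρ, ← hu, hg g, Fin.sum_univ_four]
    rfl
  · intro z hz
    have h1 : z ∈ (⊥ : IntermediateField K L) := by
      rw [IsGalois.mem_bot_iff_fixed]
      intro τ
      have h2 := hz (e τ)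
      rw [hρ, e.symm_apply_apply] at h2
      exact h2
    obtain ⟨w, hw⟩ := IntermediateField.mem_bot.1 h1
    rw [← hw]
    exact w.2

end Pool.CND
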